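import Mathlib

set_option autoImplicit false

namespace Pool.Agent.H354Z.MK

/-- Words of length `T` on `S` states with no self-loop. -/
def Word (S T : ℕ) : Type :=
  {w : Fin T → Fin S // ∀ (t : ℕ) (h : t + 1 < T), w ⟨t, Nat.lt_of_succ_lt h⟩ ≠ w ⟨t + 1, h⟩}

/-- Ordered pairs `(i, j)` of distinct states: the rows of the design matrix. -/
abbrev Arc (S : ℕ) : Type := {p : Fin S × Fin S // p.1 ≠ p.2}

/-- The entry of the design matrix in row `a = (i, j)` and column `w`: the number of `t` with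
`s_t = i` and `s_{t+1} = j`. -/
def design {S T : ℕ} (a : Arc S) (w : Word S T) : ℕ :=
  (Finset.univ.filter (fun t : Fin T =>
    ∃ h : t.1 + 1 < T, w.1 t = a.1.1 ∧ w.1 ⟨t.1 + 1, h⟩ = a.1.2)).card

/-- The monomial map `p_w ↦ ∏ θ_a ^ A_{a,w}`. -/
noncomputable def toricMap (k : Type) [Field k] (S T : ℕ) :
    MvPolynomial (Word S T) k →ₐ[k] MvPolynomial (Arc S) k :=
  MvPolynomial.aeval (fun w => ∏ a : Arc S, MvPolynomial.X a ^ design a w)

/-- The toric ideal `I_A`: the kernel of the monomial map. -/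
noncomputable def toricIdeal (k : Type) [Field k] (S T : ℕ) : Ideal (MvPolynomial (Word S T) k) :=
  RingHom.ker (toricMap k S T)

end Pool.Agent.H354Z.MK
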