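import Pool.Agent.H354Z.MK.Defs

set_option autoImplicit false

namespace Pool.Agent.H354Z.MK

open MvPolynomial

instance instDecEqWord (S T : ℕ) : DecidableEq (Word S T) := by unfold Word; infer_instance

noncomputable def adeg {S T : ℕ} (v : Word S T →₀ ℕ) : Arc S →₀ ℕ :=
  Finsupp.equivFunOnFinite.symm (fun a => v.sum (fun w n => n * design a w))

lemma adeg_apply {S T : ℕ} (v : Word S T →₀ ℕ) (a : Arc S) :
    adeg v a = v.sum (fun w n => n * design a w) := rfl

lemma toricMap_monomial (k : Type) [Field k] {S T : ℕ} (v : Word S T →₀ ℕ) (c : k) :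
    toricMap k S T (monomial v c) = monomial (adeg v) c := by
  unfold toricMap
  rw [aeval_monomial, monomial_eq, Finsupp.prod_fintype (adeg v) _ (fun _ => pow_zero _)]
  congr 1
  unfold Finsupp.prod
  simp only [← Finset.prod_pow, ← pow_mul]
  rw [Finset.prod_comm]
  apply Finset.prod_congr rfl
  intro a _
  rw [Finset.prod_pow_eq_pow_sum, adeg_apply]
  congr 1
  unfold Finsupp.sum
  apply Finset.sum_congr rfl
  intro w _; ring

lemma coeff_zero_of_unique (k : Type) [Field k] {S T : ℕ} {g : MvPolynomial (Word S T) k}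
    (hg : g ∈ toricIdeal k S T) (u : Word S T →₀ ℕ)
    (hu : ∀ v, adeg v = adeg u → v = u) : coeff u g = 0 := by
  classical
  have h : toricMap k S T g = 0 := hg
  have h2 := congrArg (coeff (adeg u)) h
  rw [g.as_sum, map_sum, coeff_sum, coeff_zero] at h2
  simp only [toricMap_monomial, coeff_monomial] at h2
  rw [Finset.sum_eq_single u] at h2
  · simpa using h2
  · intro v _ hv
    rw [if_neg (fun e => hv (hu v e))]
  · intro h; simpa using h

def mk4 (a b c d : Fin 6) (h : a ≠ b ∧ b ≠ c ∧ c ≠ d) : Word 6 4 :=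
  ⟨![a, b, c, d], fun t ht => by
    have : t = 0 ∨ t = 1 ∨ t = 2 := by omega
    rcases this with rfl | rfl | rfl
    · exact h.1
    · exact h.2.1
    · exact h.2.2⟩

def w1 : Word 6 4 := mk4 1 4 3 4 (by decide)
def w2 : Word 6 4 := mk4 2 5 2 5 (by decide)
def w3 : Word 6 4 := mk4 4 3 4 3 (by decide)
def w4 : Word 6 4 := mk4 0 1 5 2 (by decide)
def w5 : Word 6 4 := mk4 5 2 5 2 (by decide)
def w6 : Word 6 4 := mk4 1 5 2 5 (by decide)
def w7 : Word 6 4 := mk4 0 1 4 3 (by decide)
def w8 : Word 6 4 := mk4 3 4 3 4 (by decide)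

def Fp : Finset (Word 6 4) := {w1, w2, w3, w4}
def Fa : Finset (Word 6 4) := {w1, w2, w3, w4, w5, w6, w7, w8}

def inD (i j : Fin 6) : Bool :=
  (i, j) ∈ [((0 : Fin 6), (1 : Fin 6)), (1, 4), (1, 5), (2, 5), (5, 2), (3, 4), (4, 3)]

lemma walks : ∀ a b c d : Fin 6, inD a b = true → inD b c = true → inD c d = true →
    (![a, b, c, d] : Fin 4 → Fin 6) ∈ [w1.1, w2.1, w3.1, w4.1, w5.1, w6.1, w7.1, w8.1] := by
  decide +kernel

lemma outD : ∀ a : Arc 6, inD a.1.1 a.1.2 = false → ∀ w ∈ Fa, design a w = 0 := by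
  decide +kernel

lemma mem_Fa (w : Word 6 4) (h : ∀ a : Arc 6, inD a.1.1 a.1.2 = false → design a w = 0) :
    w ∈ Fa := by
  have key : ∀ (t : ℕ) (ht : t + 1 < 4),
      inD (w.1 ⟨t, Nat.lt_of_succ_lt ht⟩) (w.1 ⟨t + 1, ht⟩) = true := by
    intro t ht
    by_contra hc
    have := h ⟨(w.1 ⟨t, Nat.lt_of_succ_lt ht⟩, w.1 ⟨t + 1, ht⟩), w.2 t ht⟩ (by simpa using hc)
    unfold design at this
    rw [Finset.card_eq_zero, Finset.eq_empty_iff_forall_notMem] at this
    exact this ⟨t, Nat.lt_of_succ_lt ht⟩ (by simp [ht])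
  have h1 := walks _ _ _ _ (key 0 (by norm_num)) (key 1 (by norm_num)) (key 2 (by norm_num))
  have e : (![w.1 ⟨0, by norm_num⟩, w.1 ⟨1, by norm_num⟩, w.1 ⟨2, by norm_num⟩,
      w.1 ⟨3, by norm_num⟩] : Fin 4 → Fin 6) = w.1 := by
    funext i; fin_cases i <;> rfl
  have h2 : w.1 ∈ [w1.1, w2.1, w3.1, w4.1, w5.1, w6.1, w7.1, w8.1] := e ▸ h1
  simp only [List.mem_cons, List.not_mem_nil, or_false] at h2
  simp only [Fa, Finset.mem_insert, Finset.mem_singleton]
  rcases h2 with h | h | h | h | h | h | h | h <;> simp [Subtype.ext h]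

lemma sum_Fa (f : Word 6 4 → ℕ) :
    ∑ w ∈ Fa, f w = f w1 + f w2 + f w3 + f w4 + f w5 + f w6 + f w7 + f w8 := by
  unfold Fa
  rw [Finset.sum_insert (by decide), Finset.sum_insert (by decide), Finset.sum_insert (by decide),
    Finset.sum_insert (by decide), Finset.sum_insert (by decide), Finset.sum_insert (by decide),
    Finset.sum_insert (by decide), Finset.sum_singleton]
  ring

lemma adeg_Fa (v : Word 6 4 →₀ ℕ) (hv : v.support ⊆ Fa) (a : Arc 6) :
    adeg v a = v w1 * design a w1 + v w2 * design a w2 + v w3 * design a w3 + v w4 * design a w4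
      + v w5 * design a w5 + v w6 * design a w6 + v w7 * design a w7 + v w8 * design a w8 := by
  rw [adeg_apply, Finsupp.sum_of_support_subset _ hv (fun w n => n * design a w)
    (fun _ _ => zero_mul _), sum_Fa]

def row (a : Arc 6) : List ℕ :=
  [design a w1, design a w2, design a w3, design a w4, design a w5, design a w6, design a w7,
    design a w8]

lemma r01 : row ⟨(0, 1), by decide⟩ = [0, 0, 0, 1, 0, 0, 1, 0] := by decide +kernel
lemma r14 : row ⟨(1, 4), by decide⟩ = [1, 0, 0, 0, 0, 0, 1, 0] := by decide +kernel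
lemma r15 : row ⟨(1, 5), by decide⟩ = [0, 0, 0, 1, 0, 1, 0, 0] := by decide +kernel
lemma r25 : row ⟨(2, 5), by decide⟩ = [0, 2, 0, 0, 1, 1, 0, 0] := by decide +kernel
lemma r52 : row ⟨(5, 2), by decide⟩ = [0, 1, 0, 1, 2, 1, 0, 0] := by decide +kernel
lemma r34 : row ⟨(3, 4), by decide⟩ = [1, 0, 1, 0, 0, 0, 0, 2] := by decide +kernel
lemma r43 : row ⟨(4, 3), by decide⟩ = [1, 0, 2, 0, 0, 0, 1, 1] := by decide +kernel

lemma Fp_sub : Fp ⊆ Fa := by decide

lemma unique (u v : Word 6 4 →₀ ℕ) (hu : u.support ⊆ Fp) (hd : u.sum (fun _ n => n) ≤ 8)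
    (h : adeg v = adeg u) : v = u := by
  have hu' : u.support ⊆ Fa := hu.trans Fp_sub
  have hv : v.support ⊆ Fa := by
    intro w hw
    apply mem_Fa
    intro a ha
    have h1 : adeg u a = 0 := by
      rw [adeg_apply]
      exact Finset.sum_eq_zero (fun x hx => by
        show u x * design a x = 0
        rw [outD a ha x (hu' hx), mul_zero])
    rw [← h, adeg_apply] at h1
    have h2 := (Finset.sum_eq_zero_iff.mp h1) w hw
    exact (mul_eq_zero.mp h2).resolve_left (Finsupp.mem_support_iff.mp hw)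
  have z : ∀ w, w ∉ Fp → u w = 0 := fun w hw => Finsupp.notMem_support_iff.mp (fun e => hw (hu e))
  have z5 := z w5 (by decide)
  have z6 := z w6 (by decide)
  have z7 := z w7 (by decide)
  have z8 := z w8 (by decide)
  rw [Finsupp.sum_of_support_subset _ hu' _ (fun _ _ => rfl), sum_Fa] at hd
  have e : ∀ a, _ := fun a => (adeg_Fa v hv a).symm.trans
    ((DFunLike.congr_fun h a).trans (adeg_Fa u hu' a))
  have e1 := e ⟨(0, 1), by decide⟩
  have e2 := e ⟨(1, 4), by decide⟩
  have e3 := e ⟨(1, 5), by decide⟩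
  have e4 := e ⟨(2, 5), by decide⟩
  have e5 := e ⟨(5, 2), by decide⟩
  have e6 := e ⟨(3, 4), by decide⟩
  have e7 := e ⟨(4, 3), by decide⟩
  have a1 := r01; have a2 := r14; have a3 := r15; have a4 := r25; have a5 := r52
  have a6 := r34; have a7 := r43
  simp only [row, List.cons.injEq, and_true] at a1 a2 a3 a4 a5 a6 a7
  simp only [a1, a2, a3, a4, a5, a6, a7] at e1 e2 e3 e4 e5 e6 e7
  ext w
  by_cases hw : w ∈ Fa
  · simp only [Fa, Finset.mem_insert, Finset.mem_singleton] at hw
    rcases hw with rfl | rfl | rfl | rfl | rfl | rfl | rfl | rfl <;> omega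
  · rw [Finsupp.notMem_support_iff.mp (fun e => hw (hv e)),
      Finsupp.notMem_support_iff.mp (fun e => hw (hu' e))]

noncomputable def psi (k : Type) [Field k] : MvPolynomial (Word 6 4) k →ₐ[k] k :=
  aeval (fun w => if w ∈ Fp then 1 else 0)

lemma psi_low (k : Type) [Field k] {g : MvPolynomial (Word 6 4) k} (hg : g ∈ toricIdeal k 6 4)
    (hd : g.totalDegree ≤ 8) : psi k g = 0 := by
  rw [g.as_sum, map_sum]
  apply Finset.sum_eq_zero
  intro u hu
  by_cases h : u.support ⊆ Fp
  · exfalso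
    apply mem_support_iff.mp hu
    exact coeff_zero_of_unique k hg u
      (fun v hv => unique u v h (le_trans (le_totalDegree hu) hd) hv)
  · obtain ⟨w, hw1, hw2⟩ := Finset.not_subset.mp h
    unfold psi
    rw [aeval_monomial]
    apply mul_eq_zero_of_right
    apply Finset.prod_eq_zero hw1
    show (if w ∈ Fp then (1:k) else 0) ^ (u w) = 0
    rw [if_neg hw2]
    exact zero_pow (Finsupp.mem_support_iff.mp hw1)

lemma rows_bal : ∀ a : Arc 6, design a w1 * 3 + design a w2 * 2 + design a w3 + design a w4 * 3 =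
    design a w5 + design a w6 * 3 + design a w7 * 3 + design a w8 * 2 := by
  decide +kernel

theorem main (k : Type) [Field k] (G : Set (MvPolynomial (Word 6 4) k))
    (hG : Ideal.span G = toricIdeal k 6 4) : ∃ g ∈ G, 9 ≤ g.totalDegree := by
  by_contra hc
  push Not at hc
  have h1 : toricIdeal k 6 4 ≤ RingHom.ker (psi k) := by
    rw [← hG, Ideal.span_le]
    intro g hg
    exact psi_low k (hG ▸ Ideal.subset_span hg) (by have := hc g hg; omega)
  have h2 : (X w1 ^ 3 * X w2 ^ 2 * X w3 * X w4 ^ 3 - X w5 * X w6 ^ 3 * X w7 ^ 3 * X w8 ^ 2 :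
      MvPolynomial (Word 6 4) k) ∈ toricIdeal k 6 4 := by
    show toricMap k 6 4 _ = 0
    simp only [toricMap, map_sub, map_mul, map_pow, aeval_X]
    rw [sub_eq_zero]
    simp only [← Finset.prod_pow, ← pow_mul, ← Finset.prod_mul_distrib, ← pow_add]
    apply Finset.prod_congr rfl
    intro a _
    rw [rows_bal a]
  have h3 : psi k _ = 0 := h1 h2
  have m1 : w1 ∈ Fp := by decide
  have m2 : w2 ∈ Fp := by decide
  have m3 : w3 ∈ Fp := by decide
  have m4 : w4 ∈ Fp := by decide
  have m5 : w5 ∉ Fp := by decide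
  simp [psi, m1, m2, m3, m4, m5] at h3

end Pool.Agent.H354Z.MK
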